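import Pool.Agent.Helper3.DL.Defs

/-! DL-10a: the function `sc`. -/

namespace Pool.Agent.DL

open MeasureTheory Finset

variable {n : ℕ}

theorem sc_even (u : ℝ) : sc (-u) = sc u := by
  unfold sc
  rw [mul_neg, Real.sinc_neg]

theorem abs_sc_le (u : ℝ) : |sc u| ≤ 1 := Real.abs_sinc_le_one _

theorem continuous_sc : Continuous sc := Real.continuous_sinc.comp (by fun_prop)

theorem sc_lower {u : ℝ} (h : |u| ≤ 1 / 2) : 1 / 2 ≤ sc u := by
  have main : ∀ v : ℝ, 0 < v → v ≤ 1 / 2 → 1 / 2 ≤ sc v := by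
    intro v hv hv2
    have hpi := Real.pi_pos
    have h0 : Real.pi * v ≠ 0 := (mul_pos hpi hv).ne'
    unfold sc
    rw [Real.sinc_of_ne_zero h0, le_div_iff₀ (mul_pos hpi hv)]
    have h1 := Real.mul_le_sin (mul_pos hpi hv).le (by nlinarith : Real.pi * v ≤ Real.pi / 2)
    have h2 : 2 / Real.pi * (Real.pi * v) = 2 * v := by field_simp
    rw [h2] at h1
    have h3 : Real.pi ≤ 4 := Real.pi_le_four
    nlinarith
  rcases lt_trichotomy u 0 with hu | hu | hu
  · rw [← sc_even]
    apply main _ (by linarith)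
    rw [abs_of_neg hu] at h
    exact h
  · subst hu
    unfold sc
    rw [mul_zero, Real.sinc_zero]
    norm_num
  · apply main _ hu
    rw [abs_of_pos hu] at h
    exact h

namespace ScAux

theorem mul_bound (u : ℝ) : |u| * |sc u| ≤ 1 := by
  by_cases hu : u = 0
  · subst hu
    simp
  have hpi := Real.pi_pos
  have h0 : Real.pi * u ≠ 0 := mul_ne_zero hpi.ne' hu
  unfold sc
  rw [Real.sinc_of_ne_zero h0, abs_div, abs_mul, abs_of_pos hpi]
  have h1 : |u| ≠ 0 := abs_ne_zero.2 hu
  have h2 : |u| * (|Real.sin (Real.pi * u)| / (Real.pi * |u|)) =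
      |Real.sin (Real.pi * u)| / Real.pi := by
    field_simp
  rw [h2, div_le_one hpi]
  exact (Real.abs_sin_le_one _).trans (by linarith [Real.pi_gt_three])

theorem sq_bound (u : ℝ) : sc u ^ 2 ≤ 2 * (1 + u ^ 2)⁻¹ := by
  have h1 : sc u ^ 2 ≤ 1 := by
    rw [← sq_abs]
    exact pow_le_one₀ (abs_nonneg _) (abs_sc_le u)
  have h2 : (|u| * |sc u|) ^ 2 ≤ 1 := pow_le_one₀ (by positivity) (mul_bound u)
  rw [mul_pow, sq_abs, sq_abs] at h2
  rw [← div_eq_mul_inv, le_div_iff₀ (by positivity)]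
  nlinarith

theorem pow_bound {p : ℕ} (hp : 2 ≤ p) (u : ℝ) : |sc u ^ p| ≤ 2 * (1 + u ^ 2)⁻¹ := by
  refine le_trans ?_ (sq_bound u)
  rw [abs_pow, ← sq_abs]
  exact pow_le_pow_of_le_one (abs_nonneg _) (abs_sc_le u) hp

/-- the one dimensional integral -/
theorem integral_ee (a : ℝ) :
    ∫ z in (-(1 / 2) : ℝ)..(1 / 2), ee (a * z) = (sc a : ℂ) := by
  by_cases ha : a = 0
  · subst ha
    simp [ee, sc]
    norm_num
  · have hc : (2 * Real.pi * a * Complex.I : ℂ) ≠ 0 := by
      have : (Real.pi : ℂ) ≠ 0 := Complex.ofReal_ne_zero.2 Real.pi_ne_zero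
      have h2 : (a : ℂ) ≠ 0 := Complex.ofReal_ne_zero.2 ha
      simp [this, h2, Complex.I_ne_zero]
    have h1 : ∀ z : ℝ, ee (a * z) = Complex.exp ((2 * Real.pi * a * Complex.I : ℂ) * z) := by
      intro z
      unfold ee
      congr 1
      push_cast
      ring
    simp_rw [h1]
    rw [integral_exp_mul_complex hc]
    have h2 : (2 * Real.pi * a * Complex.I : ℂ) * ((1 / 2 : ℝ) : ℂ) =
        ((Real.pi * a : ℝ) : ℂ) * Complex.I := by push_cast; ring
    have h3 : (2 * Real.pi * a * Complex.I : ℂ) * ((-(1 / 2) : ℝ) : ℂ) =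
        ((-(Real.pi * a) : ℝ) : ℂ) * Complex.I := by push_cast; ring
    rw [h2, h3, Complex.exp_mul_I, Complex.exp_mul_I, ← Complex.ofReal_cos, ← Complex.ofReal_sin,
      ← Complex.ofReal_cos, ← Complex.ofReal_sin, Real.cos_neg, Real.sin_neg]
    have h0 : Real.pi * a ≠ 0 := mul_ne_zero Real.pi_ne_zero ha
    unfold sc
    rw [Real.sinc_of_ne_zero h0]
    have h4 : (Real.pi : ℂ) ≠ 0 := Complex.ofReal_ne_zero.2 Real.pi_ne_zero
    have h5 : (a : ℂ) ≠ 0 := Complex.ofReal_ne_zero.2 ha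
    have h6 := Complex.I_ne_zero
    push_cast
    field_simp
    ring

end ScAux

open ScAux

theorem integrable_sc_pow {p : ℕ} (hp : 2 ≤ p) : Integrable (fun u => sc u ^ p) := by
  refine (integrable_inv_one_add_sq.const_mul 2).mono'
    (continuous_sc.pow p).aestronglyMeasurable (Filter.Eventually.of_forall fun u => ?_)
  exact pow_bound hp u

theorem sc_spec (b : Fin n → ℝ) :
    Spec {ξ : Fin n → ℝ | ∀ i, |ξ i| ≤ |b i| / 2} (fun x => ((∏ i, sc (b i * x i) : ℝ) : ℂ)) := by
  let cl : ℝ → ℝ := fun z => max (-(1 / 2)) (min z (1 / 2))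
  have hcl : ∀ z, |cl z| ≤ 1 / 2 := by
    intro z
    rw [abs_le]
    refine ⟨le_max_left _ _, max_le (by norm_num) (min_le_right _ _)⟩
  have hcm : Continuous cl := by fun_prop
  let μ : Measure (Fin n → ℝ) :=
    Measure.pi fun _ => volume.restrict (Set.Ioc (-(1 / 2) : ℝ) (1 / 2))
  refine ⟨Fin n → ℝ, inferInstance, μ, inferInstance, fun _ => 1, fun ω i => b i * cl (ω i),
    integrable_const _, ?_, ?_, ?_⟩
  · refine measurable_pi_lambda _ fun i => ?_
    exact ((hcm.measurable).comp (measurable_pi_apply i)).const_mul _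
  · intro ω i
    rw [abs_mul]
    have h1 := hcl (ω i)
    have h2 := abs_nonneg (b i)
    nlinarith
  · intro x
    have h1 : ∀ ω : Fin n → ℝ, (1 : ℂ) * ee (dot x fun i => b i * cl (ω i)) =
        ∏ i, ee ((b i * x i) * cl (ω i)) := by
      intro ω
      rw [one_mul]
      unfold ee dot
      rw [← Complex.exp_sum]
      congr 1
      push_cast
      rw [Finset.mul_sum, Finset.sum_mul]
      refine Finset.sum_congr rfl fun i _ => ?_
      ring
    simp_rw [h1]
    rw [integral_fintype_prod_eq_prod (fun i z => ee ((b i * x i) * cl z))]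
    push_cast
    refine Finset.prod_congr rfl fun i _ => ?_
    rw [← integral_ee, intervalIntegral.integral_of_le (by norm_num)]
    refine setIntegral_congr_fun measurableSet_Ioc fun z hz => ?_
    have : cl z = z := by
      simp only [cl]
      rw [min_eq_left hz.2, max_eq_right hz.1.le]
    simp only [this]

end Pool.Agent.DL
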