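import Pool.Agent.Helper31.DL.Sc

/-! DL-10b: the Fourier transform of `sc ^ p`. -/

namespace Pool.Agent.DL

open MeasureTheory Finset

namespace SplAux

open scoped FourierTransform

theorem integrable_cos {p : ℕ} (hp : 2 ≤ p) (ξ : ℝ) :
    Integrable (fun u => sc u ^ p * Real.cos (2 * Real.pi * u * ξ)) := by
  refine (integrable_sc_pow hp).mul_bdd (c := 1) ?_ ?_
  · exact (by fun_prop : Continuous fun u : ℝ => Real.cos (2 * Real.pi * u * ξ)).aestronglyMeasurable
  · exact Filter.Eventually.of_forall fun u => Real.abs_cos_le_one _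

theorem integrable_sin {p : ℕ} (hp : 2 ≤ p) (ξ : ℝ) :
    Integrable (fun u => sc u ^ p * Real.sin (2 * Real.pi * u * ξ)) := by
  refine (integrable_sc_pow hp).mul_bdd (c := 1) ?_ ?_
  · exact (by fun_prop : Continuous fun u : ℝ => Real.sin (2 * Real.pi * u * ξ)).aestronglyMeasurable
  · exact Filter.Eventually.of_forall fun u => Real.abs_sin_le_one _

theorem sin_zero {p : ℕ} (ξ : ℝ) :
    ∫ u : ℝ, sc u ^ p * Real.sin (2 * Real.pi * u * ξ) = 0 := by
  have h1 := integral_neg_eq_self (fun u : ℝ => sc u ^ p * Real.sin (2 * Real.pi * u * ξ)) volume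
  have h2 : ∀ u : ℝ, sc (-u) ^ p * Real.sin (2 * Real.pi * (-u) * ξ) =
      -(sc u ^ p * Real.sin (2 * Real.pi * u * ξ)) := by
    intro u
    rw [sc_even, show 2 * Real.pi * (-u) * ξ = -(2 * Real.pi * u * ξ) by ring, Real.sin_neg]
    ring
  simp_rw [h2] at h1
  rw [integral_neg] at h1
  linarith

/-- averaging a cosine over an interval of length one -/
theorem avg_cos (u ξ : ℝ) :
    ∫ z in (-(1 / 2) : ℝ)..(1 / 2), Real.cos (2 * Real.pi * u * (ξ + z)) =
      sc u * Real.cos (2 * Real.pi * u * ξ) := by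
  by_cases hu : u = 0
  · subst hu
    simp [sc]
    norm_num
  · have hpi := Real.pi_ne_zero
    have hc : 2 * Real.pi * u ≠ 0 := mul_ne_zero (mul_ne_zero two_ne_zero hpi) hu
    have hd : ∀ z ∈ Set.uIcc (-(1 / 2) : ℝ) (1 / 2),
        HasDerivAt (fun z => Real.sin (2 * Real.pi * u * (ξ + z)) / (2 * Real.pi * u))
          (Real.cos (2 * Real.pi * u * (ξ + z))) z := by
      intro z _
      have h1 : HasDerivAt (fun z : ℝ => 2 * Real.pi * u * (ξ + z)) (2 * Real.pi * u) z := by
        simpa using ((hasDerivAt_id z).const_add ξ).const_mul (2 * Real.pi * u)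
      have h2 := (h1.sin).div_const (2 * Real.pi * u)
      rwa [mul_div_cancel_right₀ _ hc] at h2
    rw [intervalIntegral.integral_eq_sub_of_hasDerivAt hd]
    · unfold sc
      rw [Real.sinc_of_ne_zero (mul_ne_zero hpi hu)]
      have e1 : 2 * Real.pi * u * (ξ + 1 / 2) = 2 * Real.pi * u * ξ + Real.pi * u := by ring
      have e2 : 2 * Real.pi * u * (ξ + -(1 / 2)) = 2 * Real.pi * u * ξ - Real.pi * u := by ring
      rw [e1, e2, Real.sin_add, Real.sin_sub]
      field_simp
      ring
    · apply Continuous.intervalIntegrable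
      fun_prop

theorem spl_continuous {p : ℕ} (hp : 2 ≤ p) : Continuous (spl p) := by
  unfold spl
  refine continuous_of_dominated (bound := fun u => |sc u ^ p|) ?_ ?_ ?_ ?_
  · intro ξ
    exact (integrable_cos hp ξ).1
  · intro ξ
    refine Filter.Eventually.of_forall fun u => ?_
    rw [Real.norm_eq_abs, abs_mul]
    exact mul_le_of_le_one_right (abs_nonneg _) (Real.abs_cos_le_one _)
  · exact (integrable_sc_pow hp).abs
  · refine Filter.Eventually.of_forall fun u => ?_
    fun_prop

/-- the recursion -/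
theorem spl_succ {p : ℕ} (hp : 2 ≤ p) (ξ : ℝ) :
    spl (p + 1) ξ = ∫ z in (-(1 / 2) : ℝ)..(1 / 2), spl p (ξ + z) := by
  unfold spl
  rw [intervalIntegral.integral_of_le (by norm_num)]
  have hint : Integrable (Function.uncurry fun (z u : ℝ) =>
      sc u ^ p * Real.cos (2 * Real.pi * u * (ξ + z)))
      ((volume.restrict (Set.Ioc (-(1 / 2) : ℝ) (1 / 2))).prod volume) := by
    have h1 : Integrable (fun t : ℝ × ℝ => (1 : ℝ) * sc t.2 ^ p)
        ((volume.restrict (Set.Ioc (-(1 / 2) : ℝ) (1 / 2))).prod volume) :=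
      (integrable_const (1 : ℝ)).mul_prod (integrable_sc_pow hp)
    refine h1.mono ?_ ?_
    · have hc : Continuous (Function.uncurry fun (z u : ℝ) =>
          sc u ^ p * Real.cos (2 * Real.pi * u * (ξ + z))) := by
        have := continuous_sc
        unfold Function.uncurry
        fun_prop
      exact hc.aestronglyMeasurable
    · refine Filter.Eventually.of_forall fun t => ?_
      simp only [Function.uncurry, Real.norm_eq_abs, one_mul]
      rw [abs_mul]
      exact mul_le_of_le_one_right (abs_nonneg _) (Real.abs_cos_le_one _)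
  rw [integral_integral_swap hint]
  refine integral_congr_ae (Filter.Eventually.of_forall fun u => ?_)
  simp only
  rw [integral_const_mul, ← intervalIntegral.integral_of_le (by norm_num), avg_cos]
  ring

/-! ### the base case -/

/-- the triangle function -/
noncomputable def tr (v : ℝ) : ℝ := max 0 (1 - |v|)

theorem tr_continuous : Continuous tr := by
  unfold tr
  fun_prop

theorem tr_zero {v : ℝ} (h : 1 ≤ |v|) : tr v = 0 := by
  unfold tr
  exact max_eq_left (by linarith)

theorem tr_integrable : Integrable (fun v => ((tr v : ℝ) : ℂ)) := by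
  have hc : HasCompactSupport (fun v => ((tr v : ℝ) : ℂ)) := by
    refine HasCompactSupport.intro (isCompact_Icc (a := (-1 : ℝ)) (b := 1)) ?_
    intro v hv
    have : 1 ≤ |v| := by
      rw [Set.mem_Icc, not_and_or, not_le, not_le] at hv
      rcases hv with h | h
      · exact (by linarith : (1 : ℝ) ≤ -v).trans (neg_le_abs v)
      · exact h.le.trans (le_abs_self v)
    rw [tr_zero this]
    simp
  exact (Complex.continuous_ofReal.comp tr_continuous).integrable_of_hasCompactSupport hc

theorem int_right {c : ℂ} (hc : c ≠ 0) :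
    ∫ v in (0 : ℝ)..1, Complex.exp (c * v) * ((1 : ℂ) - v) =
      Complex.exp c / c ^ 2 - 1 / c - 1 / c ^ 2 := by
  have hd : ∀ v ∈ Set.uIcc (0 : ℝ) 1,
      HasDerivAt (fun v : ℝ => ((1 : ℂ) - v) * Complex.exp (c * v) / c + Complex.exp (c * v) / c ^ 2)
        (Complex.exp (c * v) * ((1 : ℂ) - v)) v := by
    intro v _
    have h1 : HasDerivAt (fun v : ℝ => ((1 : ℂ) - v)) (-1) v := by
      simpa using (Complex.ofRealCLM.hasDerivAt (x := v)).const_sub (1 : ℂ)
    have h2 : HasDerivAt (fun v : ℝ => Complex.exp (c * v)) (Complex.exp (c * v) * (c * 1)) v :=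
      (((Complex.ofRealCLM.hasDerivAt (x := v)).const_mul c).cexp)
    have h3 := ((h1.mul h2).div_const c).add (h2.div_const (c ^ 2))
    refine HasDerivAt.congr_deriv h3 ?_
    field_simp
    ring
  rw [intervalIntegral.integral_eq_sub_of_hasDerivAt hd]
  · push_cast
    simp
    ring
  · apply Continuous.intervalIntegrable
    fun_prop

theorem int_left {c : ℂ} (hc : c ≠ 0) :
    ∫ v in (-1 : ℝ)..0, Complex.exp (c * v) * ((1 : ℂ) + v) =
      1 / c - 1 / c ^ 2 + Complex.exp (-c) / c ^ 2 := by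
  have hd : ∀ v ∈ Set.uIcc (-1 : ℝ) 0,
      HasDerivAt (fun v : ℝ => ((1 : ℂ) + v) * Complex.exp (c * v) / c - Complex.exp (c * v) / c ^ 2)
        (Complex.exp (c * v) * ((1 : ℂ) + v)) v := by
    intro v _
    have h1 : HasDerivAt (fun v : ℝ => ((1 : ℂ) + v)) 1 v := by
      simpa using (Complex.ofRealCLM.hasDerivAt (x := v)).const_add (1 : ℂ)
    have h2 : HasDerivAt (fun v : ℝ => Complex.exp (c * v)) (Complex.exp (c * v) * (c * 1)) v :=
      (((Complex.ofRealCLM.hasDerivAt (x := v)).const_mul c).cexp)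
    have h3 := ((h1.mul h2).div_const c).sub (h2.div_const (c ^ 2))
    refine HasDerivAt.congr_deriv h3 ?_
    field_simp
    ring
  rw [intervalIntegral.integral_eq_sub_of_hasDerivAt hd]
  · push_cast
    simp
  · apply Continuous.intervalIntegrable
    fun_prop

theorem tr_split (c : ℂ) :
    ∫ v : ℝ, Complex.exp (c * v) * ((tr v : ℝ) : ℂ) =
      (∫ v in (-1 : ℝ)..0, Complex.exp (c * v) * ((1 : ℂ) + v)) +
        ∫ v in (0 : ℝ)..1, Complex.exp (c * v) * ((1 : ℂ) - v) := by
  have h1 : ∫ v : ℝ, Complex.exp (c * v) * ((tr v : ℝ) : ℂ) =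
      ∫ v in (-1 : ℝ)..1, Complex.exp (c * v) * ((tr v : ℝ) : ℂ) := by
    rw [intervalIntegral.integral_of_le (by norm_num), setIntegral_eq_integral_of_forall_compl_eq_zero]
    intro v hv
    have : 1 ≤ |v| := by
      rw [Set.mem_Ioc, not_and_or, not_lt, not_le] at hv
      rcases hv with h | h
      · exact (by linarith : (1 : ℝ) ≤ -v).trans (neg_le_abs v)
      · exact h.le.trans (le_abs_self v)
    rw [tr_zero this]
    simp
  have hcont : Continuous fun v : ℝ => Complex.exp (c * v) * ((tr v : ℝ) : ℂ) := by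
    have := tr_continuous
    fun_prop
  rw [h1, ← intervalIntegral.integral_add_adjacent_intervals
    (hcont.intervalIntegrable (-1) 0) (hcont.intervalIntegrable 0 1)]
  congr 1
  · refine intervalIntegral.integral_congr fun v hv => ?_
    rw [Set.uIcc_of_le (by norm_num)] at hv
    unfold tr
    rw [abs_of_nonpos hv.2, max_eq_right (by linarith [hv.1])]
    push_cast
    ring
  · refine intervalIntegral.integral_congr fun v hv => ?_
    rw [Set.uIcc_of_le (by norm_num)] at hv
    unfold tr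
    rw [abs_of_nonneg hv.1, max_eq_right (by linarith [hv.2])]
    push_cast
    ring

theorem fourier_tr (u : ℝ) : 𝓕 (fun v => ((tr v : ℝ) : ℂ)) u = ((sc u ^ 2 : ℝ) : ℂ) := by
  rw [Real.fourier_real_eq_integral_exp_smul]
  have h0 : ∀ v : ℝ, Complex.exp (((-2 * Real.pi * v * u : ℝ) : ℂ) * Complex.I) • ((tr v : ℝ) : ℂ) =
      Complex.exp ((-(2 * Real.pi * u * Complex.I) : ℂ) * v) * ((tr v : ℝ) : ℂ) := by
    intro v
    rw [smul_eq_mul]
    congr 2
    push_cast
    ring
  simp_rw [h0]
  rw [tr_split]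
  by_cases hu : u = 0
  · subst hu
    have e1 : ∫ v in (-1 : ℝ)..0, ((1 : ℂ) + v) = 1 / 2 := by
      have h5 : ∀ v : ℝ, ((1 : ℂ) + v) = ((1 + v : ℝ) : ℂ) := fun v => by push_cast; ring
      have h6 : ∫ x in (-1 : ℝ)..0, (1 + x) = 1 / 2 := by
        rw [intervalIntegral.integral_add (by simp) (by simp), integral_id]
        norm_num
      simp_rw [h5]
      rw [intervalIntegral.integral_ofReal, h6]
      norm_num
    have e2 : ∫ v in (0 : ℝ)..1, ((1 : ℂ) - v) = 1 / 2 := by
      have h5 : ∀ v : ℝ, ((1 : ℂ) - v) = ((1 - v : ℝ) : ℂ) := fun v => by push_cast; ring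
      have h6 : ∫ x in (0 : ℝ)..1, (1 - x) = 1 / 2 := by
        rw [intervalIntegral.integral_sub (by simp) (by simp), integral_id]
        norm_num
      simp_rw [h5]
      rw [intervalIntegral.integral_ofReal, h6]
      norm_num
    simp only [Complex.ofReal_zero, mul_zero, zero_mul, neg_zero, Complex.exp_zero, one_mul]
    rw [e1, e2]
    simp [sc]
    norm_num
  · have hpi : (Real.pi : ℂ) ≠ 0 := Complex.ofReal_ne_zero.2 Real.pi_ne_zero
    have hu' : (u : ℂ) ≠ 0 := Complex.ofReal_ne_zero.2 hu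
    have hI := Complex.I_ne_zero
    set c : ℂ := -(2 * Real.pi * u * Complex.I) with hc
    have hc0 : c ≠ 0 := by
      rw [hc]
      exact neg_ne_zero.2 (mul_ne_zero (mul_ne_zero (mul_ne_zero two_ne_zero hpi) hu') hI)
    rw [int_left hc0, int_right hc0]
    have e1 : Complex.exp c + Complex.exp (-c) = ((2 * Real.cos (2 * (Real.pi * u)) : ℝ) : ℂ) := by
      have h1 : -c = ((2 * (Real.pi * u) : ℝ) : ℂ) * Complex.I := by rw [hc]; push_cast; ring
      have h2 : c = ((-(2 * (Real.pi * u)) : ℝ) : ℂ) * Complex.I := by rw [hc]; push_cast; ring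
      rw [h1, h2, Complex.exp_mul_I, Complex.exp_mul_I, ← Complex.ofReal_cos,
        ← Complex.ofReal_sin, ← Complex.ofReal_cos, ← Complex.ofReal_sin, Real.cos_neg,
        Real.sin_neg]
      push_cast
      ring
    have e2 : 1 / c - 1 / c ^ 2 + Complex.exp (-c) / c ^ 2 +
        (Complex.exp c / c ^ 2 - 1 / c - 1 / c ^ 2) =
        ((Complex.exp c + Complex.exp (-c)) - 2) / c ^ 2 := by ring
    have e3 : c ^ 2 = ((-(4 * (Real.pi * u) ^ 2) : ℝ) : ℂ) := by
      rw [hc, neg_sq, mul_pow, Complex.I_sq]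
      push_cast
      ring
    rw [e2, e1, e3, Real.cos_two_mul]
    unfold sc
    rw [Real.sinc_of_ne_zero (mul_ne_zero Real.pi_ne_zero hu)]
    rw [← Complex.ofReal_ofNat, ← Complex.ofReal_sub, ← Complex.ofReal_div]
    congr 1
    have h3 : Real.cos (Real.pi * u) ^ 2 = 1 - Real.sin (Real.pi * u) ^ 2 := by
      rw [← Real.sin_sq_add_cos_sq (Real.pi * u)]; ring
    have h4 : Real.pi * u ≠ 0 := mul_ne_zero Real.pi_ne_zero hu
    rw [h3]
    field_simp
    ring

end SplAux

open SplAux

theorem spl_ft {p : ℕ} (hp : 2 ≤ p) (ξ : ℝ) :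
    ∫ u : ℝ, ((sc u ^ p : ℝ) : ℂ) * ee (u * ξ) = (spl p ξ : ℂ) := by
  have h1 : ∀ u : ℝ, ((sc u ^ p : ℝ) : ℂ) * ee (u * ξ) =
      ((sc u ^ p * Real.cos (2 * Real.pi * u * ξ) : ℝ) : ℂ) +
        Complex.I * ((sc u ^ p * Real.sin (2 * Real.pi * u * ξ) : ℝ) : ℂ) := by
    intro u
    unfold ee
    have h2 : (2 * Real.pi * ((u * ξ : ℝ) : ℂ) * Complex.I : ℂ) =
        ((2 * Real.pi * u * ξ : ℝ) : ℂ) * Complex.I := by push_cast; ring
    rw [h2, Complex.exp_mul_I, ← Complex.ofReal_cos, ← Complex.ofReal_sin]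
    push_cast
    ring
  simp_rw [h1]
  rw [integral_add (integrable_cos hp ξ).ofReal ((integrable_sin hp ξ).ofReal.const_mul _),
    integral_const_mul, integral_complex_ofReal, integral_complex_ofReal, sin_zero]
  unfold spl
  simp

namespace SplAux

open scoped FourierTransform

theorem spl_two (ξ : ℝ) : spl 2 ξ = tr ξ := by
  have hc : Continuous fun v => ((tr v : ℝ) : ℂ) := Complex.continuous_ofReal.comp tr_continuous
  have hF : 𝓕 (fun v => ((tr v : ℝ) : ℂ)) = fun u => ((sc u ^ 2 : ℝ) : ℂ) := funext fourier_tr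
  have hFi : Integrable (𝓕 (fun v => ((tr v : ℝ) : ℂ))) := by
    rw [hF]
    exact (integrable_sc_pow le_rfl).ofReal
  have h1 := congrFun (hc.fourierInv_fourier_eq tr_integrable hFi) ξ
  rw [hF, Real.fourierInv_eq'] at h1
  have h2 : ∀ u : ℝ, Complex.exp (((2 * Real.pi * inner ℝ u ξ : ℝ) : ℂ) * Complex.I) •
      ((sc u ^ 2 : ℝ) : ℂ) = ((sc u ^ 2 : ℝ) : ℂ) * ee (u * ξ) := by
    intro u
    unfold ee
    rw [smul_eq_mul, mul_comm]
    congr 2
    simp only [RCLike.inner_apply, conj_trivial]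
    push_cast
    ring
  simp_rw [h2] at h1
  rw [spl_ft le_rfl] at h1
  exact_mod_cast h1

/-- all properties by induction -/
theorem spl_props {p : ℕ} (hp : 2 ≤ p) : (∀ ξ, 0 ≤ spl p ξ) ∧ (∀ ξ, spl p ξ ≤ 1) ∧
    (∀ ξ, (p : ℝ) / 2 ≤ |ξ| → spl p ξ = 0) ∧
    ∀ (ξ : ℝ) (V : ℕ), |ξ| + p ≤ V → ∑ ν ∈ Icc (-(V : ℤ)) V, spl p (ξ - ν) = 1 := by
  induction p, hp using Nat.le_induction with
  | base =>
    refine ⟨fun ξ => ?_, fun ξ => ?_, fun ξ h => ?_, fun ξ V h => ?_⟩
    · rw [spl_two]; exact le_max_left _ _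
    · rw [spl_two]
      unfold tr
      exact max_le zero_le_one (by linarith [abs_nonneg ξ])
    · rw [spl_two]
      exact tr_zero (by push_cast at h; linarith)
    · -- only `ν = ⌊ξ⌋` and `ν = ⌊ξ⌋ + 1` contribute
      push_cast at h
      have hf1 := Int.floor_le ξ
      have hf2 := Int.lt_floor_add_one ξ
      set m := ⌊ξ⌋ with hm
      have hξ1 := neg_abs_le ξ
      have hξ2 := le_abs_self ξ
      have hm1 : -(V : ℤ) ≤ m := by
        have : (-(V : ℤ) : ℝ) ≤ m := by
          push_cast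
          linarith
        exact_mod_cast this
      have hm2 : m + 1 ≤ (V : ℤ) := by
        have : ((m + 1 : ℤ) : ℝ) ≤ ((V : ℤ) : ℝ) := by
          push_cast
          linarith
        exact_mod_cast this
      have hsub : ({m, m + 1} : Finset ℤ) ⊆ Icc (-(V : ℤ)) V := by
        intro ν hν
        rw [mem_insert, mem_singleton] at hν
        rw [mem_Icc]
        omega
      rw [← Finset.sum_subset hsub]
      · rw [Finset.sum_pair (by omega), spl_two, spl_two]
        unfold tr
        push_cast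
        rw [abs_of_nonneg (by linarith : 0 ≤ ξ - (m : ℝ)),
          abs_of_nonpos (by linarith : ξ - ((m : ℝ) + 1) ≤ 0),
          max_eq_right (by linarith), max_eq_right (by linarith)]
        ring
      · intro ν _ hν
        rw [mem_insert, mem_singleton, not_or] at hν
        rw [spl_two]
        apply tr_zero
        rcases lt_or_gt_of_ne hν.1 with h1 | h1
        · have : (ν : ℝ) + 1 ≤ m := by exact_mod_cast h1
          exact (by linarith : (1 : ℝ) ≤ ξ - ν).trans (le_abs_self _)
        · have h2 : m + 2 ≤ ν := by omega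
          have : (m : ℝ) + 2 ≤ ν := by exact_mod_cast h2
          exact (by linarith : (1 : ℝ) ≤ -(ξ - ν)).trans (neg_le_abs _)
  | succ p hp ih =>
    obtain ⟨h1, h2, h3, h4⟩ := ih
    have hcont := spl_continuous hp
    have hci : ∀ ξ : ℝ, Continuous fun z => spl p (ξ + z) := fun ξ =>
      hcont.comp (by fun_prop)
    refine ⟨fun ξ => ?_, fun ξ => ?_, fun ξ h => ?_, fun ξ V h => ?_⟩
    · rw [spl_succ hp]
      exact intervalIntegral.integral_nonneg (by norm_num) fun z _ => h1 _
    · rw [spl_succ hp]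
      have h5 := intervalIntegral.integral_mono_on (by norm_num : (-(1 / 2) : ℝ) ≤ 1 / 2)
        ((hci ξ).intervalIntegrable _ _)
        (continuous_const.intervalIntegrable (μ := volume) (-(1 / 2) : ℝ) (1 / 2))
        (fun z _ => h2 (ξ + z))
      refine h5.trans (le_of_eq ?_)
      simp
      norm_num
    · rw [spl_succ hp]
      have h5 : ∀ z ∈ Set.uIcc (-(1 / 2) : ℝ) (1 / 2), spl p (ξ + z) = 0 := by
        intro z hz
        rw [Set.uIcc_of_le (by norm_num)] at hz
        apply h3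
        push_cast at h
        have h6 : |ξ| ≤ |ξ + z| + |z| := by
          calc |ξ| = |(ξ + z) - z| := by ring_nf
            _ ≤ _ := abs_sub _ _
        have h7 : |z| ≤ 1 / 2 := abs_le.2 ⟨hz.1, hz.2⟩
        linarith
      rw [intervalIntegral.integral_congr (g := fun _ => (0 : ℝ)) h5]
      simp
    · simp_rw [spl_succ hp]
      rw [← intervalIntegral.integral_finsetSum fun ν _ => (hci _).intervalIntegrable _ _]
      have h5 : ∀ z ∈ Set.uIcc (-(1 / 2) : ℝ) (1 / 2),
          ∑ ν ∈ Icc (-(V : ℤ)) V, spl p (ξ - ν + z) = 1 := by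
        intro z hz
        rw [Set.uIcc_of_le (by norm_num)] at hz
        have h6 : |ξ + z| ≤ |ξ| + |z| := abs_add_le _ _
        have h7 : |z| ≤ 1 / 2 := abs_le.2 ⟨hz.1, hz.2⟩
        push_cast at h
        have h8 := h4 (ξ + z) V (by linarith)
        rw [← h8]
        refine Finset.sum_congr rfl fun ν _ => ?_
        congr 1
        ring
      rw [intervalIntegral.integral_congr (g := fun _ => (1 : ℝ)) h5]
      simp
      norm_num

end SplAux

theorem spl_nonneg {p : ℕ} (hp : 2 ≤ p) (ξ : ℝ) : 0 ≤ spl p ξ := (spl_props hp).1 ξ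

theorem spl_le {p : ℕ} (hp : 2 ≤ p) (ξ : ℝ) : spl p ξ ≤ 1 := (spl_props hp).2.1 ξ

theorem spl_zero {p : ℕ} (hp : 2 ≤ p) {ξ : ℝ} (h : (p : ℝ) / 2 ≤ |ξ|) : spl p ξ = 0 :=
  (spl_props hp).2.2.1 ξ h

theorem spl_sum {p : ℕ} (hp : 2 ≤ p) (ξ : ℝ) (V : ℕ) (h : |ξ| + p ≤ V) :
    ∑ ν ∈ Icc (-(V : ℤ)) V, spl p (ξ - ν) = 1 := (spl_props hp).2.2.2 ξ V h

theorem spl_even (p : ℕ) (ξ : ℝ) : spl p (-ξ) = spl p ξ := by
  unfold spl
  refine integral_congr_ae (Filter.Eventually.of_forall fun u => ?_)
  simp only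
  rw [mul_neg, Real.cos_neg]

theorem spl_pos {p : ℕ} (hp : 2 ≤ p) (hev : Even p) : 0 < spl p 0 := by
  unfold spl
  simp only [mul_zero, Real.cos_zero, mul_one]
  have hnn : 0 ≤ fun u => sc u ^ p := fun u => hev.pow_nonneg _
  rw [integral_pos_iff_support_of_nonneg hnn (integrable_sc_pow hp)]
  have hopen : IsOpen (Function.support fun u => sc u ^ p) :=
    (continuous_sc.pow p).isOpen_support
  refine hopen.measure_pos volume ⟨0, ?_⟩
  rw [Function.mem_support]
  simp [sc]

end Pool.Agent.DL
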