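import Pool.Agent.Helper31.DL.Spl

/-! DL-10c: a reproducing kernel dominated by powers of `sc`. -/

namespace Pool.Agent.DL

open MeasureTheory Finset

namespace KerAux

theorem norm_ee (t : ℝ) : ‖ee t‖ = 1 := by
  unfold ee
  rw [show (2 * Real.pi * t * Complex.I : ℂ) = ((2 * Real.pi * t : ℝ) : ℂ) * Complex.I by
    push_cast; ring, Complex.norm_exp_ofReal_mul_I]

theorem continuous_ee : Continuous ee := by
  unfold ee
  fun_prop

theorem ee_add (s t : ℝ) : ee (s + t) = ee s * ee t := by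
  unfold ee
  rw [← Complex.exp_add]
  congr 1
  push_cast
  ring

/-- the one dimensional kernel -/
noncomputable def k1 (a V : ℕ) (y : ℝ) : ℂ :=
  (∑ ν ∈ Icc (-(V : ℤ)) V, ee (ν * y)) * ((sc y ^ (2 * a) : ℝ) : ℂ)

theorem k1_continuous (a V : ℕ) : Continuous (k1 a V) := by
  unfold k1
  refine Continuous.mul ?_ ?_
  · exact continuous_finsetSum _ fun ν _ => continuous_ee.comp (by fun_prop)
  · exact Complex.continuous_ofReal.comp (continuous_sc.pow _)

theorem k1_norm (a V : ℕ) (y : ℝ) : ‖k1 a V y‖ ≤ (2 * V + 1) * sc y ^ (2 * a) := by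
  unfold k1
  have h0 : 0 ≤ sc y ^ (2 * a) := (even_two_mul a).pow_nonneg _
  rw [norm_mul, Complex.norm_real, Real.norm_of_nonneg h0]
  refine mul_le_mul_of_nonneg_right ?_ h0
  refine (norm_sum_le _ _).trans ?_
  simp only [norm_ee, Finset.sum_const, nsmul_eq_mul, mul_one]
  rw [Int.card_Icc]
  have : ((V : ℤ) + 1 - -(V : ℤ)).toNat = 2 * V + 1 := by omega
  rw [this]
  push_cast
  exact le_rfl

theorem k1_integrable {a : ℕ} (ha : 1 ≤ a) (V : ℕ) : Integrable (k1 a V) := by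
  refine ((integrable_sc_pow (p := 2 * a) (by omega)).const_mul (2 * (V : ℝ) + 1)).mono'
    (k1_continuous a V).aestronglyMeasurable (Filter.Eventually.of_forall fun y => k1_norm a V y)

theorem k1_integral {a : ℕ} (ha : 1 ≤ a) (V : ℕ) (ξ : ℝ) (h : |ξ| + (2 * a : ℕ) ≤ V) :
    ∫ y : ℝ, k1 a V y * ee (-(y * ξ)) = 1 := by
  have h2 : 2 ≤ 2 * a := by omega
  have h1 : ∀ y : ℝ, k1 a V y * ee (-(y * ξ)) =
      ∑ ν ∈ Icc (-(V : ℤ)) V, ((sc y ^ (2 * a) : ℝ) : ℂ) * ee (y * (ν - ξ)) := by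
    intro y
    unfold k1
    rw [Finset.sum_mul, Finset.sum_mul]
    refine Finset.sum_congr rfl fun ν _ => ?_
    rw [show y * ((ν : ℝ) - ξ) = ν * y + -(y * ξ) by ring, ee_add]
    ring
  simp_rw [h1]
  rw [integral_finsetSum]
  · simp_rw [spl_ft h2]
    have h3 : ∀ ν : ℤ, spl (2 * a) ((ν : ℝ) - ξ) = spl (2 * a) (ξ - ν) := by
      intro ν
      rw [← spl_even]
      congr 1
      ring
    simp_rw [h3]
    rw [← Complex.ofReal_sum, spl_sum h2 ξ V h]
    simp
  · intro ν _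
    refine ((integrable_sc_pow h2).ofReal).mul_bdd (c := 1) ?_ ?_
    · exact (continuous_ee.comp (by fun_prop)).aestronglyMeasurable
    · exact Filter.Eventually.of_forall fun y => (norm_ee _).le

end KerAux

open KerAux

theorem exists_kernel (n a : ℕ) (ha : 1 ≤ a) (C : ℝ) : ∃ K : ℝ, 0 < K ∧
    ∃ η : (Fin n → ℝ) → ℂ, Integrable η ∧ Continuous η ∧
      (∀ y, ‖η y‖ ≤ K * ∏ i, sc (y i) ^ (2 * a)) ∧
      (∀ ξ : Fin n → ℝ, (∀ i, |ξ i| ≤ C) → ∫ y, η y * ee (-dot y ξ) = 1) := by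
  obtain ⟨V, hV⟩ := exists_nat_ge (C + (2 * a : ℕ))
  refine ⟨(2 * V + 1) ^ n, by positivity, fun y => ∏ i, k1 a V (y i), ?_, ?_, ?_, ?_⟩
  · exact Integrable.fintype_prod (f := fun _ : Fin n => k1 a V) fun _ => k1_integrable ha V
  · exact continuous_finsetProd _ fun i _ => (k1_continuous a V).comp (continuous_apply i)
  · intro y
    rw [norm_prod]
    calc ∏ i, ‖k1 a V (y i)‖ ≤ ∏ i, ((2 * V + 1) * sc (y i) ^ (2 * a)) :=
          Finset.prod_le_prod (fun _ _ => norm_nonneg _) fun i _ => k1_norm a V (y i)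
      _ = (2 * V + 1) ^ n * ∏ i, sc (y i) ^ (2 * a) := by
          rw [Finset.prod_mul_distrib]
          simp
  · intro ξ hξ
    have h1 : ∀ y : Fin n → ℝ, (∏ i, k1 a V (y i)) * ee (-dot y ξ) =
        ∏ i, (k1 a V (y i) * ee (-(y i * ξ i))) := by
      intro y
      rw [Finset.prod_mul_distrib]
      congr 1
      unfold ee dot
      rw [← Complex.exp_sum]
      congr 1
      push_cast
      rw [← Finset.sum_neg_distrib, Finset.mul_sum, Finset.sum_mul]
    simp_rw [h1]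
    rw [volume_pi, integral_fintype_prod_eq_prod (fun i y => k1 a V y * ee (-(y * ξ i)))]
    refine Finset.prod_eq_one fun i _ => ?_
    exact k1_integral ha V (ξ i) (by linarith [hξ i])

end Pool.Agent.DL
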